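import Pool.Agent.BPN.Defs

/-!
# Constructions on group spectra (project BPN)
-/

namespace BPN

open Function

namespace GSp

/-- Path spectrum (decalage): `(P G)_q = G_{q+1}`, the operators `d 0`, `s 0` are forgotten. -/
def P (G : GSp) : GSp where
  G := fun q => G.G (q + 1)
  d := fun i {q r} h => G.d (i + 1) (by omega : (q + 1) + 1 = r + 1)
  s := fun i {q r} h => G.s (i + 1) (by omega : (q + 1) + 1 = r + 1)
  dd := fun {i j} hij {q r t} h₁ h₂ x => G.dd (by omega : i + 1 ≤ j + 1) (by omega) (by omega) x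
  ds_lt := fun {i j} hij {q r t} h₁ h₂ x =>
    G.ds_lt (by omega : i + 1 ≤ j + 1) (by omega) (by omega) x
  ds_eq := fun i {q r} h x => G.ds_eq (i + 1) (by omega) x
  ds_succ := fun i {q r} h x => G.ds_succ (i + 1) (by omega) x
  ds_gt := fun {i j} hij {q r t} h₁ h₂ x =>
    G.ds_gt (by omega : j + 1 < i + 1) (by omega) (by omega) x
  ss := fun {i j} hij {q r t} h₁ h₂ x => G.ss (by omega : i + 1 ≤ j + 1) (by omega) (by omega) x
  fin := fun {q r} h x => by
    obtain ⟨n, hn⟩ := G.fin (by omega : (q + 1) + 1 = r + 1) x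
    exact ⟨n, fun i hi => hn (i + 1) (by omega)⟩

/-- The end point map `d 0 : P G → G`. -/
def dP (G : GSp) : Hom G.P G where
  f := fun q => G.d 0 (rfl : q + 1 = q + 1)
  map_d := fun i {q r} h x => by
    subst h
    exact G.dd (Nat.zero_le i) rfl rfl x
  map_s := fun i {q r} h x => by
    subst h
    exact G.ds_lt (Nat.zero_le i) rfl rfl x

/-- Product of two group spectra. -/
def prod (G H : GSp) : GSp where
  G := fun q => G.G q × H.G q
  d := fun i _ _ h => (G.d i h).prodMap (H.d i h)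
  s := fun i _ _ h => (G.s i h).prodMap (H.s i h)
  dd := fun hij _ _ _ h₁ h₂ x => Prod.ext (G.dd hij h₁ h₂ x.1) (H.dd hij h₁ h₂ x.2)
  ds_lt := fun hij _ _ _ h₁ h₂ x => Prod.ext (G.ds_lt hij h₁ h₂ x.1) (H.ds_lt hij h₁ h₂ x.2)
  ds_eq := fun i _ _ h x => Prod.ext (G.ds_eq i h x.1) (H.ds_eq i h x.2)
  ds_succ := fun i _ _ h x => Prod.ext (G.ds_succ i h x.1) (H.ds_succ i h x.2)
  ds_gt := fun hij _ _ _ h₁ h₂ x => Prod.ext (G.ds_gt hij h₁ h₂ x.1) (H.ds_gt hij h₁ h₂ x.2)
  ss := fun hij _ _ _ h₁ h₂ x => Prod.ext (G.ss hij h₁ h₂ x.1) (H.ss hij h₁ h₂ x.2)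
  fin := fun {q r} h x => by
    obtain ⟨n, hn⟩ := G.fin h x.1
    obtain ⟨m, hm⟩ := H.fin h x.2
    exact ⟨max n m, fun i hi => Prod.ext (hn i (le_trans (le_max_left _ _) hi))
      (hm i (le_trans (le_max_right _ _) hi))⟩

/-- Sub group spectrum. -/
def sub (G : GSp) (S : ∀ q, AddSubgroup (G.G q))
    (hd : ∀ (i : ℕ) {q r : ℤ} (h : q + 1 = r) (x : G.G r), x ∈ S r → G.d i h x ∈ S q)
    (hs : ∀ (i : ℕ) {q r : ℤ} (h : q + 1 = r) (x : G.G q), x ∈ S q → G.s i h x ∈ S r) : GSp where
  G := fun q => S q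
  d := fun i {q r} h => ((G.d i h).comp (S r).subtype).codRestrict (S q)
    (fun x => hd i h x.1 x.2)
  s := fun i {q r} h => ((G.s i h).comp (S q).subtype).codRestrict (S r)
    (fun x => hs i h x.1 x.2)
  dd := fun hij _ _ _ h₁ h₂ x => Subtype.ext (G.dd hij h₁ h₂ x.1)
  ds_lt := fun hij _ _ _ h₁ h₂ x => Subtype.ext (G.ds_lt hij h₁ h₂ x.1)
  ds_eq := fun i _ _ h x => Subtype.ext (G.ds_eq i h x.1)
  ds_succ := fun i _ _ h x => Subtype.ext (G.ds_succ i h x.1)
  ds_gt := fun hij _ _ _ h₁ h₂ x => Subtype.ext (G.ds_gt hij h₁ h₂ x.1)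
  ss := fun hij _ _ _ h₁ h₂ x => Subtype.ext (G.ss hij h₁ h₂ x.1)
  fin := fun {q r} h x => by
    obtain ⟨n, hn⟩ := G.fin h x.1
    exact ⟨n, fun i hi => Subtype.ext (hn i hi)⟩

/-- Kernel of a homomorphism. -/
def ker {G H : GSp} (f : Hom G H) : GSp :=
  G.sub (fun q => (f.f q).ker)
    (fun i {q r} h x hx => by
      rw [AddMonoidHom.mem_ker] at hx ⊢
      rw [f.map_d, hx, map_zero])
    (fun i {q r} h x hx => by
      rw [AddMonoidHom.mem_ker] at hx ⊢
      rw [f.map_s, hx, map_zero])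

/-- Pullback of two homomorphisms. -/
def pb {G H E : GSp} (f : Hom G E) (g : Hom H E) : GSp :=
  (G.prod H).sub (fun q =>
    ((f.f q).comp (AddMonoidHom.fst (G.G q) (H.G q))).eqLocus
      ((g.f q).comp (AddMonoidHom.snd (G.G q) (H.G q))))
    (fun i {q r} h x hx => by
      change f.f q (G.d i h x.1) = g.f q (H.d i h x.2)
      change f.f r x.1 = g.f r x.2 at hx
      rw [f.map_d, g.map_d, hx])
    (fun i {q r} h x hx => by
      change f.f r (G.s i h x.1) = g.f r (H.s i h x.2)
      change f.f q x.1 = g.f q x.2 at hx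
      rw [f.map_s, g.map_s, hx])

/-- Quotient by a normal sub group spectrum. -/
def quot (G : GSp) (S : ∀ q, AddSubgroup (G.G q)) (hn : ∀ q, (S q).Normal)
    (hd : ∀ (i : ℕ) {q r : ℤ} (h : q + 1 = r) (x : G.G r), x ∈ S r → G.d i h x ∈ S q)
    (hs : ∀ (i : ℕ) {q r : ℤ} (h : q + 1 = r) (x : G.G q), x ∈ S q → G.s i h x ∈ S r) : GSp :=
  haveI := hn
  { G := fun q => G.G q ⧸ S q
    d := fun i {q r} h => QuotientAddGroup.map (S r) (S q) (G.d i h) (fun x hx => hd i h x hx)
    s := fun i {q r} h => QuotientAddGroup.map (S q) (S r) (G.s i h) (fun x hx => hs i h x hx)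
    dd := fun hij _ _ _ h₁ h₂ x => by
      induction x using QuotientAddGroup.induction_on with
      | H x => exact congrArg _ (G.dd hij h₁ h₂ x)
    ds_lt := fun hij _ _ _ h₁ h₂ x => by
      induction x using QuotientAddGroup.induction_on with
      | H x => exact congrArg _ (G.ds_lt hij h₁ h₂ x)
    ds_eq := fun i _ _ h x => by
      induction x using QuotientAddGroup.induction_on with
      | H x => exact congrArg _ (G.ds_eq i h x)
    ds_succ := fun i _ _ h x => by
      induction x using QuotientAddGroup.induction_on with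
      | H x => exact congrArg _ (G.ds_succ i h x)
    ds_gt := fun hij _ _ _ h₁ h₂ x => by
      induction x using QuotientAddGroup.induction_on with
      | H x => exact congrArg _ (G.ds_gt hij h₁ h₂ x)
    ss := fun hij _ _ _ h₁ h₂ x => by
      induction x using QuotientAddGroup.induction_on with
      | H x => exact congrArg _ (G.ss hij h₁ h₂ x)
    fin := fun {q r} h x => by
      induction x using QuotientAddGroup.induction_on with
      | H x =>
        obtain ⟨n, hn⟩ := G.fin h x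
        exact ⟨n, fun i hi => by
          change (QuotientAddGroup.mk (G.d i h x) : G.G q ⧸ S q) = 0
          rw [hn i hi]; rfl⟩ }

end GSp

/-- Nullhomotopic maps: maps which lift to the path spectrum. -/
def Map.Null {X : PSp} {G : GSp} (a : Map X G) : Prop := ∃ b : Map X G.P, Map.post G.dP b = a

end BPN
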