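import Mathlib

/-!
# Kan's semisimplicial spectra (project BPN, MP_d9f6ea_gt)

`PSp` : pointed-set spectra (Kan's semisimplicial spectra), `GSp` : group spectra, written
additively although the groups need not be commutative.  Degrees are integers, the face and
degeneracy operators `d i`, `s i` exist for every natural number `i`, and every simplex has only
finitely many nontrivial faces.
-/

namespace BPN

/-- Pointed-set spectra: Kan's semisimplicial spectra. -/
structure PSp where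
  X : ℤ → Type
  pt : ∀ q, X q
  d : ℕ → ∀ {q r : ℤ}, q + 1 = r → X r → X q
  s : ℕ → ∀ {q r : ℤ}, q + 1 = r → X q → X r
  d_pt : ∀ (i : ℕ) {q r : ℤ} (h : q + 1 = r), d i h (pt r) = pt q
  s_pt : ∀ (i : ℕ) {q r : ℤ} (h : q + 1 = r), s i h (pt q) = pt r
  dd : ∀ {i j : ℕ}, i ≤ j → ∀ {q r t : ℤ} (h₁ : q + 1 = r) (h₂ : r + 1 = t) (x : X t),
      d i h₁ (d (j + 1) h₂ x) = d j h₁ (d i h₂ x)
  ds_lt : ∀ {i j : ℕ}, i ≤ j → ∀ {q r t : ℤ} (h₁ : q + 1 = r) (h₂ : r + 1 = t) (x : X r),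
      d i h₂ (s (j + 1) h₂ x) = s j h₁ (d i h₁ x)
  ds_eq : ∀ (i : ℕ) {q r : ℤ} (h : q + 1 = r) (x : X q), d i h (s i h x) = x
  ds_succ : ∀ (i : ℕ) {q r : ℤ} (h : q + 1 = r) (x : X q), d (i + 1) h (s i h x) = x
  ds_gt : ∀ {i j : ℕ}, j < i → ∀ {q r t : ℤ} (h₁ : q + 1 = r) (h₂ : r + 1 = t) (x : X r),
      d (i + 1) h₂ (s j h₂ x) = s j h₁ (d i h₁ x)
  ss : ∀ {i j : ℕ}, i ≤ j → ∀ {q r t : ℤ} (h₁ : q + 1 = r) (h₂ : r + 1 = t) (x : X q),
      s i h₂ (s j h₁ x) = s (j + 1) h₂ (s i h₁ x)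
  fin : ∀ {q r : ℤ} (h : q + 1 = r) (x : X r), ∃ n : ℕ, ∀ i, n ≤ i → d i h x = pt q

/-- Maps of pointed-set spectra. -/
@[ext] structure PSp.Hom (X Y : PSp) where
  f : ∀ q, X.X q → Y.X q
  map_pt : ∀ q, f q (X.pt q) = Y.pt q
  map_d : ∀ (i : ℕ) {q r : ℤ} (h : q + 1 = r) (x : X.X r), f q (X.d i h x) = Y.d i h (f r x)
  map_s : ∀ (i : ℕ) {q r : ℤ} (h : q + 1 = r) (x : X.X q), f r (X.s i h x) = Y.s i h (f q x)

/-- Group spectra (Kan), additive notation. -/
structure GSp where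
  G : ℤ → Type
  [grp : ∀ q, AddGroup (G q)]
  d : ℕ → ∀ {q r : ℤ}, q + 1 = r → G r →+ G q
  s : ℕ → ∀ {q r : ℤ}, q + 1 = r → G q →+ G r
  dd : ∀ {i j : ℕ}, i ≤ j → ∀ {q r t : ℤ} (h₁ : q + 1 = r) (h₂ : r + 1 = t) (x : G t),
      d i h₁ (d (j + 1) h₂ x) = d j h₁ (d i h₂ x)
  ds_lt : ∀ {i j : ℕ}, i ≤ j → ∀ {q r t : ℤ} (h₁ : q + 1 = r) (h₂ : r + 1 = t) (x : G r),
      d i h₂ (s (j + 1) h₂ x) = s j h₁ (d i h₁ x)
  ds_eq : ∀ (i : ℕ) {q r : ℤ} (h : q + 1 = r) (x : G q), d i h (s i h x) = x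
  ds_succ : ∀ (i : ℕ) {q r : ℤ} (h : q + 1 = r) (x : G q), d (i + 1) h (s i h x) = x
  ds_gt : ∀ {i j : ℕ}, j < i → ∀ {q r t : ℤ} (h₁ : q + 1 = r) (h₂ : r + 1 = t) (x : G r),
      d (i + 1) h₂ (s j h₂ x) = s j h₁ (d i h₁ x)
  ss : ∀ {i j : ℕ}, i ≤ j → ∀ {q r t : ℤ} (h₁ : q + 1 = r) (h₂ : r + 1 = t) (x : G q),
      s i h₂ (s j h₁ x) = s (j + 1) h₂ (s i h₁ x)
  fin : ∀ {q r : ℤ} (h : q + 1 = r) (x : G r), ∃ n : ℕ, ∀ i, n ≤ i → d i h x = 0

attribute [instance] GSp.grp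

/-- Homomorphisms of group spectra. -/
@[ext] structure GSp.Hom (G H : GSp) where
  f : ∀ q, G.G q →+ H.G q
  map_d : ∀ (i : ℕ) {q r : ℤ} (h : q + 1 = r) (x : G.G r), f q (G.d i h x) = H.d i h (f r x)
  map_s : ∀ (i : ℕ) {q r : ℤ} (h : q + 1 = r) (x : G.G q), f r (G.s i h x) = H.s i h (f q x)

/-- The underlying pointed-set spectrum. -/
@[reducible] def GSp.U (G : GSp) : PSp where
  X := G.G
  pt := fun _ => 0
  d := fun i _ _ h x => G.d i h x
  s := fun i _ _ h x => G.s i h x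
  d_pt := fun _ _ _ _ => map_zero _
  s_pt := fun _ _ _ _ => map_zero _
  dd := G.dd
  ds_lt := G.ds_lt
  ds_eq := G.ds_eq
  ds_succ := G.ds_succ
  ds_gt := G.ds_gt
  ss := G.ss
  fin := G.fin

/-- Maps from a pointed-set spectrum to (the underlying pointed-set spectrum of) a group
spectrum. -/
@[ext] structure Map (X : PSp) (G : GSp) where
  f : ∀ q, X.X q → G.G q
  map_pt : ∀ q, f q (X.pt q) = 0
  map_d : ∀ (i : ℕ) {q r : ℤ} (h : q + 1 = r) (x : X.X r), f q (X.d i h x) = G.d i h (f r x)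
  map_s : ∀ (i : ℕ) {q r : ℤ} (h : q + 1 = r) (x : X.X q), f r (X.s i h x) = G.s i h (f q x)

namespace Map

variable {X : PSp} {G : GSp}

instance : Zero (Map X G) := ⟨⟨fun _ _ => 0, fun _ => rfl, fun _ _ _ _ _ => (map_zero _).symm,
  fun _ _ _ _ _ => (map_zero _).symm⟩⟩

instance : Add (Map X G) := ⟨fun a b => ⟨fun q x => a.f q x + b.f q x,
  fun q => by rw [a.map_pt, b.map_pt, add_zero],
  fun i q r h x => by rw [a.map_d, b.map_d, map_add],
  fun i q r h x => by rw [a.map_s, b.map_s, map_add]⟩⟩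

instance : Neg (Map X G) := ⟨fun a => ⟨fun q x => -a.f q x,
  fun q => by rw [a.map_pt, neg_zero],
  fun i q r h x => by rw [a.map_d, map_neg],
  fun i q r h x => by rw [a.map_s, map_neg]⟩⟩

@[simp] theorem zero_f (q : ℤ) (x : X.X q) : (0 : Map X G).f q x = 0 := rfl
@[simp] theorem add_f (a b : Map X G) (q : ℤ) (x : X.X q) :
    (a + b).f q x = a.f q x + b.f q x := rfl
@[simp] theorem neg_f (a : Map X G) (q : ℤ) (x : X.X q) : (-a).f q x = -a.f q x := rfl

theorem ext2 {a b : Map X G} (h : ∀ q x, a.f q x = b.f q x) : a = b := by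
  ext q x; exact h q x

instance : AddGroup (Map X G) :=
  AddGroup.ofLeftAxioms
    (fun a b c => ext2 fun q x => by simp [add_assoc])
    (fun a => ext2 fun q x => by simp)
    (fun a => ext2 fun q x => by simp)

/-- Postcomposition with a homomorphism. -/
def post {H : GSp} (φ : GSp.Hom G H) : Map X G →+ Map X H where
  toFun := fun a => ⟨fun q x => φ.f q (a.f q x), fun q => by rw [a.map_pt, map_zero],
    fun i q r h x => by rw [a.map_d, φ.map_d], fun i q r h x => by rw [a.map_s, φ.map_s]⟩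
  map_zero' := ext2 fun q x => by simp
  map_add' := fun a b => ext2 fun q x => by simp

/-- Precomposition with a map of pointed-set spectra. -/
def pre {Y : PSp} (φ : PSp.Hom Y X) : Map X G →+ Map Y G where
  toFun := fun a => ⟨fun q x => a.f q (φ.f q x), fun q => by rw [φ.map_pt, a.map_pt],
    fun i q r h x => by rw [φ.map_d, a.map_d], fun i q r h x => by rw [φ.map_s, a.map_s]⟩
  map_zero' := ext2 fun q x => by simp
  map_add' := fun a b => ext2 fun q x => by simp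

/-- Composition of a map with target `G` and a map with source `U G`. -/
def comp {H : GSp} (b : Map G.U H) (a : Map X G) : Map X H where
  f := fun q x => b.f q (a.f q x)
  map_pt := fun q => by rw [a.map_pt]; exact b.map_pt q
  map_d := fun i q r h x => by rw [a.map_d]; exact b.map_d i h _
  map_s := fun i q r h x => by rw [a.map_s]; exact b.map_s i h _

/-- The identity map of a group spectrum. -/
def id (G : GSp) : Map G.U G := ⟨fun _ x => x, fun _ => rfl, fun _ _ _ _ _ => rfl,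
  fun _ _ _ _ _ => rfl⟩

/-- A homomorphism as a map. -/
def ofHom {H : GSp} (φ : GSp.Hom G H) : Map G.U H :=
  ⟨fun q x => φ.f q x, fun q => map_zero _, fun i _ _ h x => φ.map_d i h x,
    fun i _ _ h x => φ.map_s i h x⟩

end Map

namespace GSp

variable (G : GSp)

/-- Cycles in degree `q`: all faces are trivial. -/
def Z (q : ℤ) : AddSubgroup (G.G q) where
  carrier := {x | ∀ (i : ℕ) {r : ℤ} (h : r + 1 = q), G.d i h x = 0}
  zero_mem' := fun _ _ _ => map_zero _
  add_mem' := fun {a b} ha hb i r h => by rw [map_add, ha i h, hb i h, add_zero]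
  neg_mem' := fun {a} ha i r h => by rw [map_neg, ha i h, neg_zero]

/-- Moore chains in degree `q`: all faces `d i` with `i ≥ 1` are trivial. -/
def N (q : ℤ) : AddSubgroup (G.G q) where
  carrier := {x | ∀ (i : ℕ) {r : ℤ} (h : r + 1 = q), G.d (i + 1) h x = 0}
  zero_mem' := fun _ _ _ => map_zero _
  add_mem' := fun {a b} ha hb i r h => by rw [map_add, ha i h, hb i h, add_zero]
  neg_mem' := fun {a} ha i r h => by rw [map_neg, ha i h, neg_zero]

/-- Boundaries in degree `q`: the elements `d 0 y` with `y` a Moore chain of degree `q + 1`. -/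
def B (q : ℤ) : AddSubgroup (G.G q) := (G.N (q + 1)).map (G.d 0 rfl)

theorem B_normal (q : ℤ) : (G.B q).Normal := by
  refine ⟨fun x hx g => ?_⟩
  obtain ⟨y, hy, rfl⟩ := hx
  refine ⟨G.s 0 rfl g + y + -G.s 0 rfl g, ?_, ?_⟩
  · intro i r h
    have hy' := hy i h
    have hr : r = q := by omega
    subst hr
    simp only [map_add, map_neg, hy', add_zero, add_neg_cancel]
  · simp only [map_add, map_neg, G.ds_eq]

instance (q : ℤ) : ((G.B q).addSubgroupOf (G.Z q)).Normal := by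
  haveI := G.B_normal q
  infer_instance

/-- The homotopy group in degree `q`. -/
def pi (q : ℤ) : Type := G.Z q ⧸ (G.B q).addSubgroupOf (G.Z q)

instance (q : ℤ) : AddGroup (G.pi q) :=
  inferInstanceAs (AddGroup (G.Z q ⧸ (G.B q).addSubgroupOf (G.Z q)))

/-- All homotopy groups vanish. -/
def Acyclic : Prop := ∀ q, ∀ x ∈ G.Z q, x ∈ G.B q

end GSp

end BPN
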