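import Pool.Agent.BPN.Pull

/-!
# Operations, derivations and the interface of part (E) (project BPN)

`Op p k` : operations of degree `k`, i.e. maps of spectra `EM (ZMod p) 0 → EM (ZMod p) k`.
`Map.Null` : nullhomotopic maps.
`Op.mul` : composition of operations.
`IsDeriv Q` : `Q` is a derivation for cup products of cocycles of simplicial sets.
`Mil p`, `Rop`, `Lop` : the Milnor coalgebra with the right and left action of the `Q_i`.
`E_out` : the theorem to be proved in part (E).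
-/

namespace BPN

open CategoryTheory SSet Simplicial Opposite

/-! ### Cup products and derivations -/

section cup

variable {X : SSet.{0}} {R : Type} [CommRing R]

/-- Cup product of cochains: front `a`-face and back `b`-face. -/
def cup {a b c : ℕ} (h : a + b = c) (x : X.obj (op ⦋a⦌) → R) (y : X.obj (op ⦋b⦌) → R) :
    X.obj (op ⦋c⦌) → R :=
  fun σ => x (opr X id monotone_id (fun i hi => by simp only [id]; omega) σ) *
    y (opr X (fun i => i + a) (fun _ _ hij => Nat.add_le_add_right hij a)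
      (fun i hi => by omega) σ)

end cup

/-- Operations of degree `k` in mod `p` cohomology. -/
abbrev Op (p : ℕ) (k : ℕ) : Type := Map (EM (ZMod p) 0).U (EM (ZMod p) k)

/-- The class of a cocycle under an operation. -/
noncomputable def Op.act {p k m l : ℕ} (a : Op p k) (h : m + k = l) {X : SSet.{0}}
    (c : CoZ X (ZMod p) m) : CoZ X (ZMod p) l := ⟨BPN.act a h c, act_mem a h c⟩

/-- `Q` is a derivation for cup products of cocycles. -/
def IsDeriv {p k : ℕ} (Q : Op p k) : Prop :=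
  ∀ (X : SSet.{0}) (a b c a' b' c' : ℕ) (hc : a + b = c) (ha' : a + k = a') (hb' : b + k = b')
    (hc' : c + k = c') (x : CoZ X (ZMod p) a) (y : CoZ X (ZMod p) b)
    (z : CoZ X (ZMod p) c) (_ : z.1 = cup hc x.1 y.1),
    IsBd ((Q.act hc' z).1 - (cup (show a' + b = c' by omega) (Q.act ha' x).1 y.1 +
      (-1 : ℤ) ^ (a * k) • cup (show a + b' = c' by omega) x.1 (Q.act hb' y).1))

/-! ### Shift and composition of operations -/

theorem EMG.cast_mem {M : Type} [AddCommGroup M] {n q n' q' : ℤ} (h : q - n = q' - n')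
    {c : (ℕ → ℕ) → M} (hc : c ∈ EMG M n q) : c ∈ EMG M n' q' := by
  obtain ⟨h1, h2, h3⟩ := hc
  rw [h] at h1
  refine ⟨h1, h2, ?_⟩
  rw [← h]
  exact h3

/-- The shifted map. -/
def Map.sh {M M' : Type} [AddCommGroup M] [AddCommGroup M'] {n m n' m' : ℤ}
    (a : Map (EM M n).U (EM M' m)) (h : n' - n = m' - m) : Map (EM M n').U (EM M' m') where
  f := fun q c => ⟨(a.f (q - (n' - n)) ⟨c.1, EMG.cast_mem (by omega) c.2⟩).1,
    EMG.cast_mem (by omega) (a.f (q - (n' - n)) ⟨c.1, EMG.cast_mem (by omega) c.2⟩).2⟩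
  map_pt := fun q => Subtype.ext (congrArg (fun z : (EM M' m).G (q - (n' - n)) => z.1)
    (a.map_pt (q - (n' - n))))
  map_d := fun i q r h' x => Subtype.ext (congrArg
    (fun z : (EM M' m).G (q - (n' - n)) => z.1)
    (a.map_d i (show q - (n' - n) + 1 = r - (n' - n) by omega)
      ⟨x.1, EMG.cast_mem (by omega) x.2⟩))
  map_s := fun i q r h' x => Subtype.ext (congrArg
    (fun z : (EM M' m).G (r - (n' - n)) => z.1)
    (a.map_s i (show q - (n' - n) + 1 = r - (n' - n) by omega)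
      ⟨x.1, EMG.cast_mem (by omega) x.2⟩))

/-- Composition of operations. -/
def Op.mul {p k l t : ℕ} (h : k + l = t) (a : Op p k) (b : Op p l) : Op p t :=
  Map.comp (Map.sh (n' := l) (m' := t) a (by omega)) b

/-! ### The Milnor coalgebra -/

/-- Free module over `F_p[ξ_1, ξ_2, ..]` (variable `j` is `ξ_{j+1}`) on the monomials
`τ^E`, `E` a finite set of natural numbers. -/
abbrev Mil (p : ℕ) : Type := Finset ℕ →₀ MvPolynomial ℕ (ZMod p)

/-- The basis element `ξ^R τ^E`. -/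
noncomputable def Mil.mon (p : ℕ) (R : ℕ →₀ ℕ) (E : Finset ℕ) : Mil p :=
  Finsupp.single E (MvPolynomial.monomial R 1)

/-- The degree of `ξ^R τ^E`. -/
def Mil.deg (p : ℕ) (R : ℕ →₀ ℕ) (E : Finset ℕ) : ℕ :=
  (R.sum fun j r => r * (2 * (p ^ (j + 1) - 1))) + ∑ e ∈ E, (2 * p ^ e - 1)

/-- Elements of degree `k`. -/
def Mil.Homog (p : ℕ) (k : ℕ) (z : Mil p) : Prop :=
  ∀ E R, (z E).coeff R ≠ 0 → Mil.deg p R E = k

/-- The element `ξ_j`, `ξ_0 = 1`. -/
noncomputable def Mil.xi (p : ℕ) (j : ℕ) : MvPolynomial ℕ (ZMod p) :=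
  if j = 0 then 1 else MvPolynomial.X (j - 1)

/-- Contraction with `τ_k`: `τ^E ↦ (-1)^{#{e ∈ E, e < k}} τ^{E \ k}` if `k ∈ E`, `0` otherwise. -/
noncomputable def Mil.contr (p : ℕ) (k : ℕ) : Mil p →ₗ[MvPolynomial ℕ (ZMod p)] Mil p :=
  Finsupp.lsum ℕ fun E : Finset ℕ =>
    if k ∈ E then ((-1 : ℤ) ^ (E.filter (· < k)).card) • Finsupp.lsingle (E.erase k) else 0

/-- Right multiplication by `Q_i`, dualised. -/
noncomputable def Mil.Rop (p : ℕ) (i : ℕ) : Mil p →ₗ[MvPolynomial ℕ (ZMod p)] Mil p :=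
  -Mil.contr p i

/-- Left multiplication by `Q_i`, dualised: `- ∑_{k ≥ i} ξ_{k-i}^{p^i} ∂_k`. -/
noncomputable def Mil.Lop (p : ℕ) (i : ℕ) : Mil p →ₗ[MvPolynomial ℕ (ZMod p)] Mil p :=
  Finsupp.lsum ℕ fun E : Finset ℕ =>
    -∑ k ∈ E.filter (fun k => i ≤ k), (Mil.xi p (k - i) ^ p ^ i) •
      (((-1 : ℤ) ^ (E.filter (· < k)).card) • Finsupp.lsingle (E.erase k))

/-- The output of part (E): a perfect pairing between the Milnor coalgebra and the operations, under
which right and left multiplication by the `Q_i` are the derivations `Rop`, `Lop`. -/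
structure EOut (p n : ℕ) (Q : ∀ i : Fin (n + 1), Op p (2 * p ^ (i : ℕ) - 1)) where
  P : ∀ k : ℕ, Mil p →+ (Op p k →+ ZMod p)
  null : ∀ k z (a : Op p k), a.Null → P k z a = 0
  homog : ∀ k (R : ℕ →₀ ℕ) (E : Finset ℕ), Mil.deg p R E ≠ k → P k (Mil.mon p R E) = 0
  nondeg : ∀ k (a : Op p k), (∀ z, P k z a = 0) → a.Null
  inj : ∀ k z, Mil.Homog p k z → P k z = 0 → z = 0
  surj : ∀ k (φ : Op p k →+ ZMod p), (∀ a, a.Null → φ a = 0) → ∃ z, P k z = φ
  rform : ∀ (i : Fin (n + 1)) (k t : ℕ) (h : k + (2 * p ^ (i : ℕ) - 1) = t) (z : Mil p)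
    (a : Op p k), P t z (Op.mul h a (Q i)) = P k (Mil.Rop p i z) a
  lform : ∀ (i : Fin (n + 1)) (k t : ℕ) (h : (2 * p ^ (i : ℕ) - 1) + k = t) (z : Mil p)
    (a : Op p k), P t z (Op.mul h (Q i) a) = (-1 : ℤ) ^ k • P k (Mil.Lop p i z) a

end BPN
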