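import Pool.Agent.BPN.Free

/-!
# Eilenberg-MacLane spectra, cocycle model (project BPN)

`(EM M n)_q` consists of the functions `c` on maps `f : ℕ → ℕ` with values in `M`, supported on
strictly monotone `f` with `f i = i + (q - n)` for large `i`, finitely supported in the sense that
`c f ≠ 0` implies that `f` hits every large number, which satisfy the cocycle condition
`∑ i, (-1)^i c (g ∘ δ i) = 0` for all monotone `g` with `g i = i + (q - n - 1)` for large `i`.
-/

namespace BPN

/-- Coface: skip the value `i`. -/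
def dl (i j : ℕ) : ℕ := if j < i then j else j + 1

/-- Codegeneracy: identify `i` and `i + 1`. -/
def sg (i j : ℕ) : ℕ := if j ≤ i then j else j - 1

theorem dl_dl {i j : ℕ} (h : i ≤ j) (x : ℕ) : dl (j + 1) (dl i x) = dl i (dl j x) := by
  unfold dl; split_ifs <;> omega

theorem sg_dl_lt {i j : ℕ} (h : i ≤ j) (x : ℕ) : sg (j + 1) (dl i x) = dl i (sg j x) := by
  unfold dl sg; split_ifs <;> omega

theorem sg_dl_eq (i x : ℕ) : sg i (dl i x) = x := by
  unfold dl sg; split_ifs <;> omega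

theorem sg_dl_succ (i x : ℕ) : sg i (dl (i + 1) x) = x := by
  unfold dl sg; split_ifs <;> omega

theorem sg_dl_gt {i j : ℕ} (h : j < i) (x : ℕ) : sg j (dl (i + 1) x) = dl i (sg j x) := by
  unfold dl sg; split_ifs <;> omega

theorem sg_sg {i j : ℕ} (h : i ≤ j) (x : ℕ) : sg j (sg i x) = sg i (sg (j + 1) x) := by
  unfold sg; split_ifs <;> omega

theorem dl_strictMono (i : ℕ) : StrictMono (dl i) := by
  intro a b h; unfold dl; split_ifs <;> omega

theorem sg_mono (i : ℕ) : Monotone (sg i) := by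
  intro a b h; unfold sg; split_ifs <;> omega

/-- `f` is eventually the shift by `k`. -/
def Shift (f : ℕ → ℕ) (k : ℤ) : Prop := ∃ N : ℕ, ∀ i, N ≤ i → (f i : ℤ) = i + k

theorem Shift.of_dl {f : ℕ → ℕ} {i : ℕ} {k l : ℤ} (h : Shift (dl i ∘ f) l) (hk : k + 1 = l) :
    Shift f k := by
  obtain ⟨N, hN⟩ := h
  refine ⟨max N (i + (1 + l.natAbs)), fun j hj => ?_⟩
  have h1 := hN j (le_trans (le_max_left _ _) hj)
  have h2 : i + (1 + l.natAbs) ≤ j := le_trans (le_max_right _ _) hj
  simp only [Function.comp_apply, dl] at h1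
  split_ifs at h1 <;> push_cast at * <;> omega

theorem Shift.dl {g : ℕ → ℕ} {i : ℕ} {k l : ℤ} (h : Shift g k) (hk : k + 1 = l) :
    Shift (dl i ∘ g) l := by
  obtain ⟨N, hN⟩ := h
  refine ⟨max N (i + k.natAbs), fun j hj => ?_⟩
  have h1 := hN j (le_trans (le_max_left _ _) hj)
  have h2 : i + k.natAbs ≤ j := le_trans (le_max_right _ _) hj
  simp only [Function.comp_apply, BPN.dl]
  split_ifs <;> push_cast at * <;> omega

theorem Shift.of_sg {f : ℕ → ℕ} {i : ℕ} {k l : ℤ} (h : Shift (sg i ∘ f) k) (hk : k + 1 = l) :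
    Shift f l := by
  obtain ⟨N, hN⟩ := h
  refine ⟨max N (i + (1 + k.natAbs)), fun j hj => ?_⟩
  have h1 := hN j (le_trans (le_max_left _ _) hj)
  have h2 : i + (1 + k.natAbs) ≤ j := le_trans (le_max_right _ _) hj
  simp only [Function.comp_apply, sg] at h1
  split_ifs at h1 <;> push_cast at * <;> omega

theorem Shift.sg {g : ℕ → ℕ} {i : ℕ} {k l : ℤ} (h : Shift g l) (hk : k + 1 = l) :
    Shift (sg i ∘ g) k := by
  obtain ⟨N, hN⟩ := h
  refine ⟨max N (i + (1 + l.natAbs)), fun j hj => ?_⟩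
  have h1 := hN j (le_trans (le_max_left _ _) hj)
  have h2 : i + (1 + l.natAbs) ≤ j := le_trans (le_max_right _ _) hj
  simp only [Function.comp_apply, BPN.sg]
  split_ifs <;> push_cast at * <;> omega

variable (M : Type) [AddCommGroup M]

/-- The group `(EM M n)_q` in the cocycle model. -/
def EMG (n q : ℤ) : AddSubgroup ((ℕ → ℕ) → M) where
  carrier := {c | (∀ f, c f ≠ 0 → StrictMono f ∧ Shift f (q - n)) ∧
    (∃ D : ℕ, ∀ f, c f ≠ 0 → ∀ v, D ≤ v → ∃ i, f i = v) ∧
    (∀ g : ℕ → ℕ, Monotone g → Shift g (q - n - 1) →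
      ∃ K₀ : ℕ, ∀ K, K₀ ≤ K → ∑ i ∈ Finset.range K, (-1 : ℤ) ^ i • c (g ∘ dl i) = 0)}
  zero_mem' := by
    refine ⟨fun f h => absurd rfl h, ⟨0, fun f h => absurd rfl h⟩, fun g _ _ => ⟨0, fun K _ => ?_⟩⟩
    simp
  add_mem' := by
    rintro a b ⟨ha1, ⟨D, ha2⟩, ha3⟩ ⟨hb1, ⟨E, hb2⟩, hb3⟩
    refine ⟨fun f h => ?_, ⟨max D E, fun f h v hv => ?_⟩, fun g hg hs => ?_⟩
    · by_cases h0 : a f = 0
      · exact hb1 f (fun h1 => h (by simp [h0, h1]))
      · exact ha1 f h0
    · by_cases h0 : a f = 0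
      · exact hb2 f (fun h1 => h (by simp [h0, h1])) v (le_trans (le_max_right _ _) hv)
      · exact ha2 f h0 v (le_trans (le_max_left _ _) hv)
    · obtain ⟨K, hK⟩ := ha3 g hg hs
      obtain ⟨L, hL⟩ := hb3 g hg hs
      refine ⟨max K L, fun T hT => ?_⟩
      simp only [Pi.add_apply, smul_add, Finset.sum_add_distrib,
        hK T (le_trans (le_max_left _ _) hT), hL T (le_trans (le_max_right _ _) hT), add_zero]
  neg_mem' := by
    rintro a ⟨ha1, ⟨D, ha2⟩, ha3⟩
    refine ⟨fun f h => ha1 f (fun h1 => h (by simp [h1])),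
      ⟨D, fun f h => ha2 f (fun h1 => h (by simp [h1]))⟩, fun g hg hs => ?_⟩
    obtain ⟨K, hK⟩ := ha3 g hg hs
    refine ⟨K, fun T hT => ?_⟩
    simp only [Pi.neg_apply, smul_neg, Finset.sum_neg_distrib, hK T hT, neg_zero]

variable {M}

theorem EMG.d_mem {n q r : ℤ} (i : ℕ) (h : q + 1 = r) {c : (ℕ → ℕ) → M} (hc : c ∈ EMG M n r) :
    (fun f => c (dl i ∘ f)) ∈ EMG M n q := by
  obtain ⟨h1, ⟨D, h2⟩, h3⟩ := hc
  refine ⟨fun f hf => ?_, ⟨D, fun f hf v hv => ?_⟩, fun g hg hs => ?_⟩
  · obtain ⟨ha, hb⟩ := h1 _ hf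
    refine ⟨fun a b hab => ?_, hb.of_dl (by omega)⟩
    by_contra hn
    exact absurd (ha hab) (not_lt.mpr ((dl_strictMono i).monotone (not_lt.mp hn)))
  · obtain ⟨j, hj⟩ := h2 _ hf (dl i v) (by unfold dl; split_ifs <;> omega)
    exact ⟨j, (dl_strictMono i).injective hj⟩
  · obtain ⟨K, hK⟩ := h3 (dl i ∘ g) ((dl_strictMono i).monotone.comp hg) (hs.dl (by omega))
    exact ⟨K, fun T hT => hK T hT⟩

theorem EMG.s_mem {n q r : ℤ} (i : ℕ) (h : q + 1 = r) {c : (ℕ → ℕ) → M} (hc : c ∈ EMG M n q) :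
    (fun f => c (sg i ∘ f)) ∈ EMG M n r := by
  obtain ⟨h1, ⟨D, h2⟩, h3⟩ := hc
  refine ⟨fun f hf => ?_, ⟨max D (i + 1) + 1, fun f hf v hv => ?_⟩, fun g hg hs => ?_⟩
  · obtain ⟨ha, hb⟩ := h1 _ hf
    refine ⟨fun a b hab => ?_, hb.of_sg (by omega)⟩
    by_contra hn
    exact absurd (ha hab) (not_lt.mpr ((sg_mono i) (not_lt.mp hn)))
  · have h4 : D ≤ v - 1 := by have := le_max_left D (i + 1); omega
    have h5 : i + 1 ≤ v - 1 := by have := le_max_right D (i + 1); omega
    obtain ⟨j, hj⟩ := h2 _ hf (v - 1) h4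
    refine ⟨j, ?_⟩
    simp only [Function.comp_apply, sg] at hj
    split_ifs at hj <;> omega
  · obtain ⟨K, hK⟩ := h3 (sg i ∘ g) ((sg_mono i).comp hg) (hs.sg (by omega))
    exact ⟨K, fun T hT => hK T hT⟩

variable (M)

/-- The Eilenberg-MacLane spectrum with homotopy group `M` in degree `n`. -/
def EM (n : ℤ) : GSp where
  G := fun q => EMG M n q
  d := fun i q r h =>
    { toFun := fun c => ⟨fun f => c.1 (dl i ∘ f), EMG.d_mem i h c.2⟩
      map_zero' := rfl
      map_add' := fun _ _ => rfl }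
  s := fun i q r h =>
    { toFun := fun c => ⟨fun f => c.1 (sg i ∘ f), EMG.s_mem i h c.2⟩
      map_zero' := rfl
      map_add' := fun _ _ => rfl }
  dd := fun {i j} hij _ _ _ _ _ x => Subtype.ext (funext fun f =>
    congrArg x.1 (funext fun a => dl_dl hij (f a)))
  ds_lt := fun {i j} hij _ _ _ _ _ x => Subtype.ext (funext fun f =>
    congrArg x.1 (funext fun a => sg_dl_lt hij (f a)))
  ds_eq := fun i _ _ _ x => Subtype.ext (funext fun f =>
    congrArg x.1 (funext fun a => sg_dl_eq i (f a)))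
  ds_succ := fun i _ _ _ x => Subtype.ext (funext fun f =>
    congrArg x.1 (funext fun a => sg_dl_succ i (f a)))
  ds_gt := fun {i j} hij _ _ _ _ _ x => Subtype.ext (funext fun f =>
    congrArg x.1 (funext fun a => sg_dl_gt hij (f a)))
  ss := fun {i j} hij _ _ _ _ _ x => Subtype.ext (funext fun f =>
    congrArg x.1 (funext fun a => sg_sg hij (f a)))
  fin := fun {q r} h x => by
    obtain ⟨D, hD⟩ := x.2.2.1
    refine ⟨D, fun i hi => Subtype.ext (funext fun f => ?_)⟩
    change x.1 (dl i ∘ f) = 0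
    by_contra hne
    obtain ⟨j, hj⟩ := hD _ hne i hi
    simp only [Function.comp_apply, dl] at hj
    split_ifs at hj <;> omega

instance (n q : ℤ) : AddCommGroup ((EM M n).G q) := inferInstanceAs (AddCommGroup (EMG M n q))

theorem sg_comp_dl_eq_id {a i : ℕ} : (sg a ∘ dl i = id) ↔ (i = a ∨ i = a + 1) := by
  constructor
  · intro h
    have h0 := congrFun h a
    have h1 := congrFun h (a + 1)
    have h2 := congrFun h i
    simp only [Function.comp_apply, id, sg, dl] at h0 h1 h2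
    split_ifs at h0 h1 h2 <;> omega
  · rintro (rfl | rfl)
    · funext x; exact sg_dl_eq _ x
    · funext x; exact sg_dl_succ _ x

theorem eq_sg_of_comp_dl_eq_id {g : ℕ → ℕ} (hg : Monotone g) {i : ℕ} (h : g ∘ dl i = id) :
    ∃ a, g = sg a := by
  have hlt : ∀ j, j < i → g j = j := fun j hj => by
    have := congrFun h j
    simpa [dl, hj] using this
  have hgt : ∀ j, i ≤ j → g (j + 1) = j := fun j hj => by
    have := congrFun h j
    simpa [dl, not_lt.mpr hj] using this
  have h1 : g i ≤ i := by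
    have := hg (Nat.le_succ i); rwa [Nat.succ_eq_add_one, hgt i le_rfl] at this
  by_cases hi : g i = i
  · refine ⟨i, funext fun j => ?_⟩
    unfold sg
    split_ifs with hj
    · rcases hj.lt_or_eq with hj | rfl
      · exact hlt j hj
      · exact hi
    · obtain ⟨t, rfl⟩ : ∃ t, j = t + 1 := ⟨j - 1, by omega⟩
      rw [hgt t (by omega)]; omega
  · have h2 : 0 < i := by
      by_contra h0
      have : i = 0 := by omega
      subst this
      exact hi (by omega)
    have h3 : i - 1 ≤ g i := by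
      have := hg (Nat.sub_le i 1); rwa [hlt (i - 1) (by omega)] at this
    refine ⟨i - 1, funext fun j => ?_⟩
    unfold sg
    split_ifs with hj
    · exact hlt j (by omega)
    · by_cases hji : j = i
      · subst hji; omega
      · obtain ⟨t, rfl⟩ : ∃ t, j = t + 1 := ⟨j - 1, by omega⟩
        rw [hgt t (by omega)]; omega

open Classical in
/-- The element of degree `n` with value `m` at the identity. -/
noncomputable def EM.bot (n : ℤ) (m : M) : (EM M n).G n := ⟨fun f => if f = id then m else 0, by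
  refine ⟨fun f hf => ?_, ⟨0, fun f hf v _ => ?_⟩, fun g hg hs => ?_⟩
  · have : f = id := by by_contra h; simp [h] at hf
    subst this
    exact ⟨strictMono_id, ⟨0, fun i _ => by simp⟩⟩
  · have : f = id := by by_contra h; simp [h] at hf
    subst this
    exact ⟨v, rfl⟩
  · by_cases h : ∃ a, g = sg a
    · obtain ⟨a, rfl⟩ := h
      refine ⟨a + 2, fun K hK => ?_⟩
      simp only [sg_comp_dl_eq_id]
      have h1 : ∀ i ∈ Finset.range K, ((-1 : ℤ) ^ i • (if i = a ∨ i = a + 1 then m else 0)) =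
          (if i = a then (-1 : ℤ) ^ i • m else 0) + (if i = a + 1 then (-1 : ℤ) ^ i • m else 0) := by
        intro i _
        by_cases hi : i = a
        · subst hi; simp
        · by_cases hi' : i = a + 1
          · subst hi'; simp
          · simp [hi, hi']
      rw [Finset.sum_congr rfl h1, Finset.sum_add_distrib, Finset.sum_ite_eq', Finset.sum_ite_eq',
        if_pos (Finset.mem_range.mpr (by omega)), if_pos (Finset.mem_range.mpr (by omega)),
        pow_succ]
      simp
    · refine ⟨0, fun K _ => Finset.sum_eq_zero fun i _ => ?_⟩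
      show (-1 : ℤ) ^ i • (if g ∘ dl i = id then m else 0) = 0
      rw [if_neg (fun h' => h (eq_sg_of_comp_dl_eq_id hg h')), smul_zero]⟩

end BPN
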