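import Pool.Agent.BPN.E.Asm1
import Pool.Agent.BPN.E.Conj
import Pool.Agent.BPN.E.DerQ

/-!
# Part (E): the main theorem (project BPN)

PROOF (helper30).  `P k z a = Ja a (cj (toTw z))`.
* `Jf_deriv`, `alp_deriv`, `alp_natOp`, `alp_hgOp`: `Ja (Q i) = γ_i • tst i`; `γ_i ≠ 0` because otherwise `Q i` is null
  (`null_of_Ja`).  `c i = (γ_i)⁻¹.val`, prime to `p`, `Ja (c i • Q i) = tst i`.
* `null`: `alp_null`.  `homog`: `cj_hg` and `Jf_Hg`.  `nondeg`: `cj_cj`, `null_of_Ja`.  `inj`: `dual_sep` for `NN p`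
  (`dualSys_Ja`), `cj_hg`, `cj_cj`.  `surj`: `exists_rep`, `z = toTw.symm (cj z')`.
* `rform`: `Ja (a · Q') = Ja a ∘ JH (tst i) ∘ ψ = Ja a ∘ RD i` (`alp_mul`, `Jf_comp`), `RD_cj`.
* `lform`: `Ja (Q' · a) (w) = tst i (JH (Ja a) (ψ w)) = Ja a (LD i w)` (`JH_JR`).  Both sides are additive in `z`, so let
  `z = c • mon R E`; `LD_cj` gives the factor `(-1)^(|E|+1)`.  If `Mil.deg R E = t` then `|E| ≡ t` modulo 2 and
  `t + 1 = 2 p^i + k ≡ k`.  If `Mil.deg R E ≠ t` the left side is zero by `homog`, and `Ja a (LD i (cj z)) = 0` is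
  `±` the right side.
-/

namespace BPN

open BPN.E BPN.E.Tw

/-- Functionals of degree `k` kill homogeneous elements of other degrees. -/
private theorem hg_kill {p : ℕ} [Fact p.Prime] {k d : ℕ} {f : Tw p ℕ →+ ZMod p} (hf : Hg k f)
    {z : Tw p ℕ} (hz : ∀ E R, co z E R ≠ 0 → Mil.deg p R E = d) (hd : d ≠ k) : f z = 0 :=
  ext_prop (fun E R => Mil.deg p R E = d) hz f 0
    (fun c E R h => hf c E R (fun h2 => hd (h.symm.trans h2)))

private theorem hg_Ja {p : ℕ} [Fact p.Prime] {k : ℕ} (a : Op p k) : Hg k (Ja a) :=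
  Jf_Hg (alp_hgOp a)

private theorem toTw_smul_mon {p : ℕ} [Fact p.Prime] (c : ZMod p) (R : ℕ →₀ ℕ) (E : Finset ℕ) :
    toTw p (c • Mil.mon p R E) = c • mon p E R := by
  rw [← toTw_mon]
  rfl

private theorem hgM_mon {p : ℕ} [Fact p.Prime] (c : ZMod p) (R : ℕ →₀ ℕ) (E : Finset ℕ) :
    ∀ E' R', co (c • mon p E R) E' R' ≠ 0 → Mil.deg p R' E' = Mil.deg p R E := by
  intro E' R' h
  rw [co_smul, co_mon] at h
  by_cases h2 : E = E' ∧ R = R'
  · rw [h2.1, h2.2]
  · rw [if_neg h2, mul_zero] at h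
    exact absurd rfl h

/-- The pairing. -/
private noncomputable def PP (p : ℕ) [Fact p.Prime] (k : ℕ) : Mil p →+ (Op p k →+ ZMod p) :=
  AddMonoidHom.mk' (fun z => AddMonoidHom.mk' (fun a => Ja a (cj p (toTw p z)))
    (fun a b => by rw [Ja_add]; rfl)) (fun z w => by
      ext a
      change Ja a (cj p (toTw p (z + w))) = Ja a (cj p (toTw p z)) + Ja a (cj p (toTw p w))
      rw [map_add, map_add, map_add])

private theorem PP_apply {p : ℕ} [Fact p.Prime] {k : ℕ} (z : Mil p) (a : Op p k) :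
    PP p k z a = Ja a (cj p (toTw p z)) := rfl

private theorem Ja_null {p : ℕ} [Fact p.Prime] {k : ℕ} (a : Op p k) (ha : a.Null) : Ja a = 0 := by
  have h1 := Jf_add (0 : Tw p ℕ →+ Tw p ℕ) 0
  rw [add_zero] at h1
  rw [Ja, alp_null a ha]
  exact left_eq_add.1 h1

private theorem PP_homog {p : ℕ} [Fact p.Prime] {k : ℕ} (c : ZMod p) (R : ℕ →₀ ℕ) (E : Finset ℕ)
    (h : Mil.deg p R E ≠ k) (a : Op p k) : PP p k (c • Mil.mon p R E) a = 0 := by
  rw [PP_apply, toTw_smul_mon]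
  exact hg_kill (hg_Ja a) (cj_hg (hgM_mon c R E)) h

private theorem deg_par {p : ℕ} [Fact p.Prime] (R : ℕ →₀ ℕ) (E : Finset ℕ) :
    Mil.deg p R E % 2 = E.card % 2 := by
  have hp : p.Prime := Fact.out
  rw [Mil.deg]
  have h1 : (R.sum fun j r => r * (2 * (p ^ (j + 1) - 1))) % 2 = 0 := by
    rw [← Nat.dvd_iff_mod_eq_zero]
    exact Finset.dvd_sum fun j _ => Dvd.dvd.mul_left (Dvd.intro _ rfl) _
  have h2 : (∑ e ∈ E, (2 * p ^ e - 1)) % 2 = E.card % 2 := by
    induction E using Finset.induction_on with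
    | empty => rfl
    | insert e E he ih =>
      rw [Finset.sum_insert he, Finset.card_insert_of_notMem he]
      have h3 : 0 < p ^ e := pow_pos hp.pos e
      omega
  omega

private theorem neg_one_pow_eq {a b : ℕ} (h : a % 2 = b % 2) : (-1 : ℤ) ^ a = (-1) ^ b := by
  rcases Nat.mod_two_eq_zero_or_one a with h1 | h1
  · rw [Even.neg_one_pow (Nat.even_iff.2 h1), Even.neg_one_pow (Nat.even_iff.2 (h ▸ h1))]
  · rw [Odd.neg_one_pow (Nat.odd_iff.2 h1), Odd.neg_one_pow (Nat.odd_iff.2 (h ▸ h1))]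

private theorem PP_mul {p : ℕ} [Fact p.Prime] {k l t : ℕ} (h : k + l = t) (a : Op p k)
    (b : Op p l) (z : Mil p) :
    PP p t z (Op.mul h a b) = Ja a (JH (Ja b) (psiM p (cj p (toTw p z)))) := by
  rw [PP_apply, Ja, alp_mul h a b, Jf_comp (alp_natOp a) (alp_natOp b) (alp_hgOp a) (alp_hgOp b)]
  rfl

/-- The case in which the functionals of the `Q i` are the dual classes of the `τ_i`. -/
private theorem E_out_norm (p : ℕ) [Fact p.Prime] (n : ℕ)
    (Q : ∀ i : Fin (n + 1), Op p (2 * p ^ (i : ℕ) - 1)) (hQ : ∀ i, Ja (Q i) = tst p i) :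
    Nonempty (EOut p n Q) := by
  have hp : p.Prime := Fact.out
  refine ⟨⟨PP p, ?_, ?_, ?_, ?_, ?_, ?_, ?_⟩⟩
  · intro k z a ha
    rw [PP_apply, Ja_null a ha]
    rfl
  · intro k R E h
    ext a
    have h1 := PP_homog 1 R E h a
    rw [one_smul] at h1
    exact h1
  · intro k a h
    refine null_of_Ja a fun z => ?_
    have h1 := h ((toTw p).symm (cj p z))
    rwa [PP_apply, AddEquiv.apply_symm_apply, cj_cj] at h1
  · intro k z hz h
    have h1 : cj p (toTw p z) = 0 := by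
      refine dual_sep dualSys_Ja k _ (cj_hg fun E R hc => hz E R hc) fun f hf => ?_
      obtain ⟨a, rfl⟩ := hf
      exact DFunLike.congr_fun h a
    have h2 : toTw p z = 0 := by
      rw [← cj_cj (toTw p z), h1, map_zero]
    exact (toTw p).injective (h2.trans (map_zero (toTw p)).symm)
  · intro k φ hφ
    obtain ⟨z, -, hz⟩ := exists_rep φ hφ
    refine ⟨(toTw p).symm (cj p z), ?_⟩
    ext a
    rw [PP_apply, AddEquiv.apply_symm_apply, cj_cj, hz]
  · intro i k t h z a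
    rw [PP_mul, hQ, PP_apply, ← RD_cj]
    rfl
  · intro i k t h z a
    have key : ∀ (c : ZMod p) (R : ℕ →₀ ℕ) (E : Finset ℕ),
        PP p t (c • Mil.mon p R E) (Op.mul h (Q i) a) =
          (-1 : ℤ) ^ k • PP p k (Mil.Lop p i (c • Mil.mon p R E)) a := by
      intro c R E
      have h1 : PP p t (c • Mil.mon p R E) (Op.mul h (Q i) a) =
          (-1 : ℤ) ^ (E.card + 1) • PP p k (Mil.Lop p i (c • Mil.mon p R E)) a := by
        rw [PP_mul, hQ, JH_JR]
        have h2 := LD_cj (p := p) i c R E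
        change Ja a (LD p i (cj p (toTw p (c • Mil.mon p R E)))) = _
        rw [h2, map_zsmul, PP_apply]
      by_cases hd : Mil.deg p R E = t
      · rw [h1]
        congr 1
        apply neg_one_pow_eq
        have h2 := deg_par (p := p) R E
        have h3 : 0 < p ^ (i : ℕ) := pow_pos hp.pos _
        omega
      · have h2 := PP_homog c R E hd (Op.mul h (Q i) a)
        rw [h2] at h1
        rw [h2]
        rcases neg_one_pow_eq_or ℤ (E.card + 1) with h3 | h3
        · rw [h3, one_smul] at h1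
          rw [← h1, smul_zero]
        · rw [h3, neg_smul, one_smul, zero_eq_neg] at h1
          rw [h1, smul_zero]
    have key2 : ∀ x : Tw p ℕ, PP p t ((toTw p).symm x) (Op.mul h (Q i) a) =
        (-1 : ℤ) ^ k • PP p k (Mil.Lop p i ((toTw p).symm x)) a := by
      intro x
      induction x using induct with
      | h0 =>
        rw [map_zero, map_zero, map_zero, map_zero]
        change (0 : ZMod p) = (-1 : ℤ) ^ k • (0 : ZMod p)
        rw [smul_zero]
      | ha x y hx hy =>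
        rw [map_add, map_add, map_add, map_add]
        change PP p t ((toTw p).symm x) (Op.mul h (Q i) a) +
          PP p t ((toTw p).symm y) (Op.mul h (Q i) a) = (-1 : ℤ) ^ k •
          (PP p k (Mil.Lop p i ((toTw p).symm x)) a + PP p k (Mil.Lop p i ((toTw p).symm y)) a)
        rw [hx, hy, smul_add]
      | hm c E R =>
        have h1 : (toTw p).symm (c • mon p E R) = c • Mil.mon p R E := by
          rw [← toTw_smul_mon, AddEquiv.symm_apply_apply]
        rw [h1]
        exact key c R E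
    have h1 := key2 (toTw p z)
    rwa [AddEquiv.symm_apply_apply] at h1

/-- Part (E): if `Q_0, .., Q_n` are not nullhomotopic and are derivations then, after multiplication
by integers prime to `p`, there is a perfect pairing as in `EOut`. -/
theorem E_out (p : ℕ) [Fact p.Prime] (n : ℕ) (Q : ∀ i : Fin (n + 1), Op p (2 * p ^ (i : ℕ) - 1))
    (hQ : ∀ i, ¬ (Q i).Null) (hD : ∀ i, IsDeriv (Q i)) :
    ∃ c : Fin (n + 1) → ℕ, (∀ i, ¬ p ∣ c i) ∧ Nonempty (EOut p n (fun i => c i • Q i)) := by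
  have h1 : ∀ i : Fin (n + 1), ∃ γ : ZMod p, γ ≠ 0 ∧ ∀ z, Ja (Q i) z = γ * tst p i z := by
    intro i
    obtain ⟨γ, hγ⟩ := Jf_deriv (p := p) (i : ℕ) (alp_natOp (Q i)) (alp_hgOp (Q i))
      (fun m x y hx => alp_deriv (hD i) m x y hx)
    refine ⟨γ, fun h0 => hQ i (null_of_Ja (Q i) fun z => ?_), hγ⟩
    have h2 := hγ z
    rw [h0, zero_mul] at h2
    exact h2
  choose γ hγ0 hγ using h1
  refine ⟨fun i => ((γ i)⁻¹).val, fun i h => ?_, E_out_norm p n _ fun i => ?_⟩
  · have h2 : (((γ i)⁻¹).val : ZMod p) = 0 := (ZMod.natCast_eq_zero_iff _ _).2 h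
    rw [ZMod.natCast_zmod_val] at h2
    exact inv_ne_zero (hγ0 i) h2
  · let F : Op p (2 * p ^ (i : ℕ) - 1) →+ (Tw p ℕ →+ ZMod p) :=
      AddMonoidHom.mk' (fun a => Ja a) (fun a b => Ja_add a b)
    have h2 : Ja (((γ i)⁻¹).val • Q i) = ((γ i)⁻¹).val • Ja (Q i) := map_nsmul F _ _
    rw [h2]
    ext z
    have h3 : (((γ i)⁻¹).val • Ja (Q i)) z = ((γ i)⁻¹).val • Ja (Q i) z := rfl
    rw [h3, hγ, nsmul_eq_mul, ZMod.natCast_zmod_val, ← mul_assoc, inv_mul_cancel₀ (hγ0 i),
      one_mul]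

end BPN
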