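import Pool.Agent.BPN.Cons

/-!
# Free group spectra and free products (project BPN)
-/

namespace BPN

open Function Classical

/-- The free additive group on a pointed set (the base point becomes `0`). -/
abbrev FrG (X : Type) (x₀ : X) : Type := FreeAddGroup {x : X // x ≠ x₀}

namespace FrG

variable {X : Type} {x₀ : X}

/-- The generator of a point (`0` for the base point). -/
noncomputable def of (x₀ : X) (x : X) : FrG X x₀ :=
  if h : x = x₀ then 0 else FreeAddGroup.of ⟨x, h⟩

@[simp] theorem of_pt : of x₀ x₀ = 0 := by simp [of]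

theorem of_ne {x : X} (h : x ≠ x₀) : of x₀ x = FreeAddGroup.of ⟨x, h⟩ := by simp [of, h]

/-- Universal property. -/
noncomputable def lift {A : Type} [AddGroup A] (f : X → A) : FrG X x₀ →+ A :=
  FreeAddGroup.lift (fun x => f x.1)

theorem lift_of {A : Type} [AddGroup A] (f : X → A) (hf : f x₀ = 0) (x : X) :
    lift f (of x₀ x) = f x := by
  by_cases h : x = x₀
  · subst h; simp [hf]
  · simp [of_ne h, lift]

theorem hom_ext {A : Type} [AddGroup A] {f g : FrG X x₀ →+ A}
    (h : ∀ x, f (of x₀ x) = g (of x₀ x)) : f = g := by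
  apply FreeAddGroup.ext_hom
  intro x
  have := h x.1
  rwa [of_ne x.2] at this

@[elab_as_elim]
theorem induction_on {C : FrG X x₀ → Prop} (z : FrG X x₀) (h0 : C 0)
    (hof : ∀ x, C (of x₀ x)) (hneg : ∀ x, C (of x₀ x) → C (-of x₀ x))
    (hadd : ∀ y z, C y → C z → C (y + z)) : C z := by
  induction z using FreeAddGroup.induction_on with
  | C1 => exact h0
  | of x => have := hof x.1; rwa [of_ne x.2] at this
  | neg_of x hx =>
    have := hneg x.1 (by rw [of_ne x.2]; exact hx)
    rwa [of_ne x.2] at this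
  | add y z hy hz => exact hadd y z hy hz

/-- Functoriality for pointed maps. -/
noncomputable def map {Y : Type} {y₀ : Y} (f : X → Y) : FrG X x₀ →+ FrG Y y₀ :=
  lift (fun x => of y₀ (f x))

theorem map_of {Y : Type} {y₀ : Y} (f : X → Y) (hf : f x₀ = y₀) (x : X) :
    map (x₀ := x₀) (y₀ := y₀) f (of x₀ x) = of y₀ (f x) :=
  lift_of _ (by rw [hf]; simp) x

end FrG

/-- The free group spectrum of a pointed-set spectrum. -/
noncomputable def PSp.F (X : PSp) : GSp where
  G := fun q => FrG (X.X q) (X.pt q)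
  d := fun i _ _ h => FrG.map (X.d i h)
  s := fun i _ _ h => FrG.map (X.s i h)
  dd := fun hij q r t h₁ h₂ x => by
    refine DFunLike.congr_fun (f := (FrG.map (X.d _ h₁)).comp (FrG.map (X.d _ h₂)))
      (g := (FrG.map (X.d _ h₁)).comp (FrG.map (X.d _ h₂))) (FrG.hom_ext fun x => ?_) x
    simp only [AddMonoidHom.comp_apply, FrG.map_of _ (X.d_pt _ _), X.dd hij]
  ds_lt := fun hij q r t h₁ h₂ x => by
    refine DFunLike.congr_fun (f := (FrG.map (X.d _ h₂)).comp (FrG.map (X.s _ h₂)))
      (g := (FrG.map (X.s _ h₁)).comp (FrG.map (X.d _ h₁))) (FrG.hom_ext fun x => ?_) x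
    simp only [AddMonoidHom.comp_apply, FrG.map_of _ (X.d_pt _ _), FrG.map_of _ (X.s_pt _ _)]
    rw [X.ds_lt hij h₁ h₂]
  ds_eq := fun i q r h x => by
    refine DFunLike.congr_fun (f := (FrG.map (X.d i h)).comp (FrG.map (X.s i h)))
      (g := AddMonoidHom.id _) (FrG.hom_ext fun x => ?_) x
    simp only [AddMonoidHom.comp_apply, FrG.map_of _ (X.d_pt _ _), FrG.map_of _ (X.s_pt _ _),
      X.ds_eq, AddMonoidHom.id_apply]
  ds_succ := fun i q r h x => by
    refine DFunLike.congr_fun (f := (FrG.map (X.d (i + 1) h)).comp (FrG.map (X.s i h)))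
      (g := AddMonoidHom.id _) (FrG.hom_ext fun x => ?_) x
    simp only [AddMonoidHom.comp_apply, FrG.map_of _ (X.d_pt _ _), FrG.map_of _ (X.s_pt _ _),
      X.ds_succ, AddMonoidHom.id_apply]
  ds_gt := fun hij q r t h₁ h₂ x => by
    refine DFunLike.congr_fun (f := (FrG.map (X.d _ h₂)).comp (FrG.map (X.s _ h₂)))
      (g := (FrG.map (X.s _ h₁)).comp (FrG.map (X.d _ h₁))) (FrG.hom_ext fun x => ?_) x
    simp only [AddMonoidHom.comp_apply, FrG.map_of _ (X.d_pt _ _), FrG.map_of _ (X.s_pt _ _)]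
    rw [X.ds_gt hij h₁ h₂]
  ss := fun hij q r t h₁ h₂ x => by
    refine DFunLike.congr_fun (f := (FrG.map (X.s _ h₂)).comp (FrG.map (X.s _ h₁)))
      (g := (FrG.map (X.s _ h₂)).comp (FrG.map (X.s _ h₁))) (FrG.hom_ext fun x => ?_) x
    simp only [AddMonoidHom.comp_apply, FrG.map_of _ (X.s_pt _ _), X.ss hij]
  fin := fun {q r} h x => by
    induction x using FrG.induction_on with
    | h0 => exact ⟨0, fun i _ => map_zero _⟩
    | hof x =>
      obtain ⟨n, hn⟩ := X.fin h x
      refine ⟨n, fun i hi => ?_⟩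
      rw [FrG.map_of _ (X.d_pt _ _), hn i hi, FrG.of_pt]
    | hneg x hx =>
      obtain ⟨n, hn⟩ := hx
      exact ⟨n, fun i hi => by rw [map_neg, hn i hi, neg_zero]⟩
    | hadd y z hy hz =>
      obtain ⟨n, hn⟩ := hy
      obtain ⟨m, hm⟩ := hz
      exact ⟨max n m, fun i hi => by
        rw [map_add, hn i (le_trans (le_max_left _ _) hi), hm i (le_trans (le_max_right _ _) hi),
          add_zero]⟩

/-- Inclusion of generators. -/
noncomputable def PSp.eta (X : PSp) : Map X X.F where
  f := fun q x => FrG.of (X.pt q) x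
  map_pt := fun q => FrG.of_pt
  map_d := fun i q r h x => (FrG.map_of _ (X.d_pt i h) x).symm
  map_s := fun i q r h x => (FrG.map_of _ (X.s_pt i h) x).symm

/-- A map from a pointed-set spectrum to a group spectrum extends to the free group spectrum. -/
noncomputable def Map.ext' {X : PSp} {G : GSp} (f : Map X G) : GSp.Hom X.F G where
  f := fun q => FrG.lift (f.f q)
  map_d := fun i q r h x => by
    refine DFunLike.congr_fun (f := (FrG.lift (f.f q)).comp (FrG.map (X.d i h)))
      (g := (G.d i h).comp (FrG.lift (f.f r))) (FrG.hom_ext fun x => ?_) x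
    simp only [AddMonoidHom.comp_apply, FrG.map_of _ (X.d_pt _ _)]
    rw [FrG.lift_of _ (f.map_pt q), FrG.lift_of _ (f.map_pt r)]
    exact f.map_d i h x
  map_s := fun i q r h x => by
    refine DFunLike.congr_fun (f := (FrG.lift (f.f r)).comp (FrG.map (X.s i h)))
      (g := (G.s i h).comp (FrG.lift (f.f q))) (FrG.hom_ext fun x => ?_) x
    simp only [AddMonoidHom.comp_apply, FrG.map_of _ (X.s_pt _ _)]
    rw [FrG.lift_of _ (f.map_pt q), FrG.lift_of _ (f.map_pt r)]
    exact f.map_s i h x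

theorem Map.ext'_of {X : PSp} {G : GSp} (f : Map X G) (q : ℤ) (x : X.X q) :
    f.ext'.f q (FrG.of (X.pt q) x) = f.f q x := FrG.lift_of _ (f.map_pt q) x

theorem Map.post_ext'_eta {X : PSp} {G : GSp} (f : Map X G) : Map.post f.ext' X.eta = f :=
  Map.ext2 fun q x => f.ext'_of q x

/-- The counit `F (U G) → G`. -/
noncomputable def GSp.eps (G : GSp) : GSp.Hom G.U.F G := (Map.id G).ext'

end BPN
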