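import Pool.Agent.BPN.EM

/-!
# Cocycles of simplicial sets and the action of operations (project BPN)

`CoZ X M m` : normalised `m`-cocycles of a simplicial set `X` with values in `M`.
`pull c σ` : the simplex of the Eilenberg-MacLane spectrum given by a cocycle `c` and a simplex `σ`.
`act a c` : the action of a map `a : EM M 0 → EM M' k` of spectra on a cocycle `c`.
`cup` : the cup product of cochains (front face, back face).
`IsDeriv Q` : `Q` is a derivation for the cup product.
-/

namespace BPN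

open CategoryTheory SSet Simplicial Opposite

/-- The morphism `[a] → [b]` of the simplex category given by a monotone function on `ℕ`. -/
def opm (f : ℕ → ℕ) (hf : Monotone f) {a b : ℕ} (hb : ∀ i, i ≤ a → f i ≤ b) :
    (⦋a⦌ : SimplexCategory) ⟶ ⦋b⦌ :=
  SimplexCategory.Hom.mk ⟨fun x => ⟨f x.1, Nat.lt_succ_of_le (hb x.1 (Nat.le_of_lt_succ x.2))⟩,
    fun _ _ h => hf h⟩

/-- The operator on simplices given by a monotone function on `ℕ`. -/
def opr (X : SSet.{0}) (f : ℕ → ℕ) (hf : Monotone f) {a b : ℕ} (hb : ∀ i, i ≤ a → f i ≤ b)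
    (σ : X.obj (op ⦋b⦌)) : X.obj (op ⦋a⦌) :=
  X.map (opm f hf hb).op σ

theorem opr_opr (X : SSet.{0}) {f g : ℕ → ℕ} (hf : Monotone f) (hg : Monotone g) {a b c : ℕ}
    (hb : ∀ i, i ≤ a → g i ≤ b) (hc : ∀ i, i ≤ b → f i ≤ c) (σ : X.obj (op ⦋c⦌)) :
    opr X g hg hb (opr X f hf hc σ) =
      opr X (f ∘ g) (hf.comp hg) (fun i hi => hc _ (hb i hi)) σ := by
  unfold opr
  rw [← types_comp_apply (X.map _) (X.map _), ← X.map_comp]
  rfl

theorem opr_congr (X : SSet.{0}) {f g : ℕ → ℕ} (hf : Monotone f) (hg : Monotone g) {a b : ℕ}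
    (hb : ∀ i, i ≤ a → f i ≤ b) (hb' : ∀ i, i ≤ a → g i ≤ b) (h : ∀ i, i ≤ a → f i = g i)
    (σ : X.obj (op ⦋b⦌)) : opr X f hf hb σ = opr X g hg hb' σ := by
  unfold opr
  have : opm f hf hb = opm g hg hb' := by
    apply SimplexCategory.Hom.ext
    ext x
    exact h x.1 (Nat.le_of_lt_succ x.2)
  rw [this]

theorem opr_id (X : SSet.{0}) {a : ℕ} (hb : ∀ i, i ≤ a → id i ≤ a) (σ : X.obj (op ⦋a⦌)) :
    opr X id monotone_id hb σ = σ := by
  unfold opr
  have : opm id monotone_id hb = 𝟙 _ := by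
    apply SimplexCategory.Hom.ext
    ext x
    rfl
  rw [this]
  simp

theorem dl_bd (i : ℕ) {a b : ℕ} (h : a + 1 = b) : ∀ j, j ≤ a → dl i j ≤ b := by
  intro j hj; unfold dl; split_ifs <;> omega

theorem sg_bd (i : ℕ) {a b : ℕ} (h : a + 1 = b) (hi : i ≤ a) : ∀ j, j ≤ b → sg i j ≤ a := by
  intro j hj; unfold sg; split_ifs <;> omega

/-- Face of a simplex. -/
def fc (X : SSet.{0}) (i : ℕ) {a b : ℕ} (h : a + 1 = b) (σ : X.obj (op ⦋b⦌)) : X.obj (op ⦋a⦌) :=
  opr X (dl i) (dl_strictMono i).monotone (dl_bd i h) σ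

/-- Degeneracy of a simplex. -/
def dg (X : SSet.{0}) (i : ℕ) {a b : ℕ} (h : a + 1 = b) (hi : i ≤ a) (σ : X.obj (op ⦋a⦌)) :
    X.obj (op ⦋b⦌) :=
  opr X (sg i) (sg_mono i) (sg_bd i h hi) σ

variable (X : SSet.{0}) (M : Type) [AddCommGroup M]

/-- Normalised cochains. -/
def CoC (m : ℕ) : AddSubgroup (X.obj (op ⦋m⦌) → M) where
  carrier := {c | ∀ (i a : ℕ) (h : a + 1 = m) (hi : i ≤ a) (τ : X.obj (op ⦋a⦌)),
    c (dg X i h hi τ) = 0}
  zero_mem' := fun _ _ _ _ _ => rfl
  add_mem' := fun {a b} ha hb i t h hi τ => by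
    simp only [Pi.add_apply, ha i t h hi τ, hb i t h hi τ, add_zero]
  neg_mem' := fun {a} ha i t h hi τ => by
    simp only [Pi.neg_apply, ha i t h hi τ, neg_zero]

variable {X M}

/-- The coboundary of a cochain. -/
def cobd {m l : ℕ} (h : m + 1 = l) (c : X.obj (op ⦋m⦌) → M) : X.obj (op ⦋l⦌) → M :=
  fun σ => ∑ i ∈ Finset.range (l + 1), (-1 : ℤ) ^ i • c (fc X i h σ)

variable (X M)

/-- Normalised cocycles. -/
def CoZ (m : ℕ) : AddSubgroup (X.obj (op ⦋m⦌) → M) where
  carrier := {c | c ∈ CoC X M m ∧ ∀ σ : X.obj (op ⦋m + 1⦌), cobd rfl c σ = 0}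
  zero_mem' := ⟨(CoC X M m).zero_mem, fun σ => by simp [cobd]⟩
  add_mem' := fun {a b} ha hb => ⟨(CoC X M m).add_mem ha.1 hb.1, fun σ => by
    have h1 := ha.2 σ
    have h2 := hb.2 σ
    unfold cobd at h1 h2 ⊢
    simp only [Pi.add_apply, smul_add, Finset.sum_add_distrib, h1, h2, add_zero]⟩
  neg_mem' := fun {a} ha => ⟨(CoC X M m).neg_mem ha.1, fun σ => by
    have h1 := ha.2 σ
    unfold cobd at h1 ⊢
    simp only [Pi.neg_apply, smul_neg, Finset.sum_neg_distrib, h1, neg_zero]⟩

/-- `z` is a coboundary (of a normalised cochain). -/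
def IsBd {X : SSet.{0}} {M : Type} [AddCommGroup M] {l : ℕ} (z : X.obj (op ⦋l⦌) → M) : Prop :=
  z = 0 ∨ ∃ (m : ℕ) (h : m + 1 = l) (e : X.obj (op ⦋m⦌) → M), e ∈ CoC X M m ∧ z = cobd h e

variable {X M}

/-- The cocycle condition of `EMG` is automatic for functions `g` which are not injective. -/
theorem EMG.auto {c : (ℕ → ℕ) → M} (hc : ∀ f, c f ≠ 0 → StrictMono f) {g : ℕ → ℕ}
    (hg : Monotone g) (h : ¬ StrictMono g) :
    ∃ K₀ : ℕ, ∀ K, K₀ ≤ K → ∑ i ∈ Finset.range K, (-1 : ℤ) ^ i • c (g ∘ dl i) = 0 := by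
  obtain ⟨a, ha⟩ : ∃ a, g a = g (a + 1) := by
    by_contra hn
    push Not at hn
    exact h (strictMono_nat_of_lt_succ fun a => lt_of_le_of_ne (hg (Nat.le_succ a)) (hn a))
  have h1 : g ∘ dl a = g ∘ dl (a + 1) := by
    funext x
    simp only [Function.comp_apply, dl]
    by_cases hx : x < a
    · rw [if_pos hx, if_pos (by omega)]
    · by_cases hx' : x = a
      · subst hx'; simp [ha]
      · rw [if_neg hx, if_neg (by omega)]
  have h2 : ∀ i, i ≠ a → i ≠ a + 1 → c (g ∘ dl i) = 0 := by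
    intro i hi hi'
    by_contra hne
    have hs := hc _ hne
    by_cases hia : i < a
    · have := hs (show a - 1 < a by omega)
      simp only [Function.comp_apply, dl] at this
      rw [if_neg (by omega), if_neg (by omega), show a - 1 + 1 = a by omega, ha] at this
      exact lt_irrefl _ this
    · have := hs (Nat.lt_succ_self a)
      simp only [Function.comp_apply, dl, Nat.succ_eq_add_one] at this
      rw [if_pos (by omega), if_pos (by omega), ha] at this
      exact lt_irrefl _ this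
  refine ⟨a + 2, fun K hK => ?_⟩
  have h3 : ∀ i ∈ Finset.range K, ((-1 : ℤ) ^ i • c (g ∘ dl i)) =
      (if i = a then (-1 : ℤ) ^ i • c (g ∘ dl a) else 0) +
      (if i = a + 1 then (-1 : ℤ) ^ i • c (g ∘ dl a) else 0) := by
    intro i _
    by_cases hi : i = a
    · subst hi; simp
    · by_cases hi' : i = a + 1
      · subst hi'; simp [h1]
      · simp [hi, hi', h2 i hi hi']
  rw [Finset.sum_congr rfl h3, Finset.sum_add_distrib, Finset.sum_ite_eq', Finset.sum_ite_eq',
    if_pos (Finset.mem_range.mpr (by omega)), if_pos (Finset.mem_range.mpr (by omega)), pow_succ]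
  simp

theorem pull_bd {m j : ℕ} {n q : ℤ} (hq : q - n = j - m) {f : ℕ → ℕ} (hf : StrictMono f)
    (hs : ∀ i : ℕ, m < i → (f i : ℤ) = i + (q - n)) : ∀ i, i ≤ m → f i ≤ j := by
  intro i hi
  have h1 : f i < f (m + 1) := hf (by omega)
  have h2 := hs (m + 1) (by omega)
  push_cast at h2
  omega

open Classical in
/-- The underlying function of `pull`. -/
noncomputable def pullFun {m j : ℕ} (c : X.obj (op ⦋m⦌) → M) (σ : X.obj (op ⦋j⦌)) {n q : ℤ}
    (hq : q - n = j - m) (f : ℕ → ℕ) : M :=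
  if h : StrictMono f ∧ ∀ i : ℕ, m < i → (f i : ℤ) = i + (q - n) then
    c (opr X f h.1.monotone (pull_bd hq h.1 h.2) σ) else 0

theorem pullFun_mem {m j : ℕ} {c : X.obj (op ⦋m⦌) → M} (hc : c ∈ CoZ X M m)
    (σ : X.obj (op ⦋j⦌)) {n q : ℤ} (hq : q - n = j - m) : pullFun c σ hq ∈ EMG M n q := by
  have hsm : ∀ f, pullFun c σ hq f ≠ 0 → StrictMono f ∧
      ∀ i : ℕ, m < i → (f i : ℤ) = i + (q - n) := by
    intro f hf
    by_contra h
    exact hf (dif_neg h)
  refine ⟨fun f hf => ⟨(hsm f hf).1, m + 1, fun i hi => (hsm f hf).2 i hi⟩,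
    ⟨j + 1, fun f hf v hv => ?_⟩, fun g hg hs => ?_⟩
  · refine ⟨v + m - j, ?_⟩
    have := (hsm f hf).2 (v + m - j) (by omega)
    omega
  · by_cases hgs : StrictMono g
    swap
    · exact EMG.auto (fun f hf => (hsm f hf).1) hg hgs
    by_cases hA : ∀ i : ℕ, m + 1 < i → (g i : ℤ) = i + (q - n - 1)
    · have hgb : ∀ i, i ≤ m + 1 → g i ≤ j := by
        intro i hi
        have h1 : g i < g (m + 2) := hgs (by omega)
        have h2 := hA (m + 2) (by omega)
        push_cast at h2
        omega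
      have key := hc.2 (opr X g hg hgb σ)
      unfold cobd at key
      refine ⟨m + 2, fun K hK => ?_⟩
      obtain ⟨K', rfl⟩ : ∃ K', K = m + 1 + 1 + K' := ⟨K - (m + 2), by omega⟩
      rw [Finset.sum_range_add]
      have hz : ∑ x ∈ Finset.range K', (-1 : ℤ) ^ (m + 1 + 1 + x) •
          pullFun c σ hq (g ∘ dl (m + 1 + 1 + x)) = 0 := by
        refine Finset.sum_eq_zero fun x _ => ?_
        have : pullFun c σ hq (g ∘ dl (m + 1 + 1 + x)) = 0 := by
          by_contra hne
          have h1 := (hsm _ hne).2 (m + 1) (by omega)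
          simp only [Function.comp_apply, dl] at h1
          rw [if_pos (by omega)] at h1
          have h2 := hgb (m + 1) le_rfl
          push_cast at h1
          omega
        rw [this, smul_zero]
      rw [hz, add_zero, ← key]
      refine Finset.sum_congr rfl fun i hi => ?_
      have hi' : i ≤ m + 1 := by have := Finset.mem_range.mp hi; omega
      congr 1
      have hcond : StrictMono (g ∘ dl i) ∧
          ∀ i' : ℕ, m < i' → ((g ∘ dl i) i' : ℤ) = i' + (q - n) := by
        refine ⟨hgs.comp (dl_strictMono i), fun i' hi'' => ?_⟩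
        simp only [Function.comp_apply, dl]
        rw [if_neg (by omega), hA (i' + 1) (by omega)]
        push_cast; ring
      unfold pullFun
      rw [dif_pos hcond]
      unfold fc
      rw [opr_opr]
    · refine ⟨0, fun K _ => Finset.sum_eq_zero fun i _ => ?_⟩
      have : pullFun c σ hq (g ∘ dl i) = 0 := by
        by_contra hne
        have h1 := (hsm _ hne).2
        by_cases hi : i ≤ m + 1
        · apply hA
          intro t ht
          have := h1 (t - 1) (by omega)
          simp only [Function.comp_apply, dl] at this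
          rw [if_neg (by omega), show t - 1 + 1 = t by omega] at this
          rw [this]
          have : ((t - 1 : ℕ) : ℤ) = t - 1 := by omega
          rw [this]; ring
        · have h2 := h1 (i - 1) (by omega)
          have h3 := h1 i (by omega)
          simp only [Function.comp_apply, dl] at h2 h3
          rw [if_pos (by omega)] at h2
          rw [if_neg (by omega)] at h3
          have h4 : g (i - 1) < g i := hgs (by omega)
          have h5 : g i < g (i + 1) := hgs (by omega)
          omega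
      rw [this, smul_zero]

/-- The simplex of the Eilenberg-MacLane spectrum given by a cocycle and a simplex. -/
noncomputable def pull {m j : ℕ} (c : CoZ X M m) (σ : X.obj (op ⦋j⦌)) {n q : ℤ}
    (hq : q - n = j - m) : (EM M n).G q :=
  ⟨pullFun c.1 σ hq, pullFun_mem c.2 σ hq⟩

theorem CoC.opr_eq_zero {m : ℕ} {c : X.obj (op ⦋m⦌) → M} (hc : c ∈ CoC X M m) {g : ℕ → ℕ}
    (hg : Monotone g) {j : ℕ} (hb : ∀ i, i ≤ m → g i ≤ j) (σ : X.obj (op ⦋j⦌)) {a : ℕ}
    (ha : a + 1 ≤ m) (h : g a = g (a + 1)) : c (opr X g hg hb σ) = 0 := by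
  obtain ⟨m', rfl⟩ : ∃ m', m = m' + 1 := ⟨m - 1, by omega⟩
  have hb' : ∀ i, i ≤ m' → (g ∘ dl a) i ≤ j := fun i hi => hb _ (dl_bd a rfl i hi)
  have := hc a m' rfl (by omega)
    (opr X (g ∘ dl a) (hg.comp (dl_strictMono a).monotone) hb' σ)
  unfold dg at this
  rw [opr_opr] at this
  rw [← this]
  congr 1
  refine opr_congr X _ _ _ _ (fun i _ => ?_) σ
  simp only [Function.comp_apply, sg, dl]
  by_cases h1 : i ≤ a
  · rw [if_pos h1]
    by_cases h2 : i < a
    · rw [if_pos h2]
    · have : i = a := by omega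
      subst this
      simp [h]
  · rw [if_neg h1, if_neg (by omega), show i - 1 + 1 = i by omega]

theorem pull_fc {m j j' : ℕ} (c : CoZ X M m) (σ : X.obj (op ⦋j⦌)) {n q r : ℤ} (hr : q + 1 = r)
    (hj : j' + 1 = j) (hq : r - n = j - m) (hq' : q - n = j' - m) {i : ℕ} (hi : i ≤ j) :
    (EM M n).d i hr (pull c σ hq) = pull c (fc X i hj σ) hq' := by
  refine Subtype.ext (funext fun f => ?_)
  change pullFun c.1 σ hq (dl i ∘ f) = pullFun c.1 (fc X i hj σ) hq' f
  unfold pullFun
  by_cases h : StrictMono f ∧ ∀ t : ℕ, m < t → (f t : ℤ) = t + (q - n)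
  · have h' : StrictMono (dl i ∘ f) ∧ ∀ t : ℕ, m < t → ((dl i ∘ f) t : ℤ) = t + (r - n) := by
      refine ⟨(dl_strictMono i).comp h.1, fun t ht => ?_⟩
      have := h.2 t ht
      simp only [Function.comp_apply, dl]
      split_ifs <;> push_cast <;> omega
    rw [dif_pos h, dif_pos h']
    unfold fc
    rw [opr_opr]
  · have h' : ¬ (StrictMono (dl i ∘ f) ∧ ∀ t : ℕ, m < t → ((dl i ∘ f) t : ℤ) = t + (r - n)) := by
      intro h'
      refine h ⟨fun a b hab => ?_, fun t ht => ?_⟩
      · by_contra hn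
        exact absurd (h'.1 hab) (not_lt.mpr ((dl_strictMono i).monotone (not_lt.mp hn)))
      · have := h'.2 t ht
        simp only [Function.comp_apply, dl] at this
        split_ifs at this <;> push_cast at this <;> omega
    rw [dif_neg h, dif_neg h']

theorem pull_fc_big {m j : ℕ} (c : CoZ X M m) (σ : X.obj (op ⦋j⦌)) {n q r : ℤ} (hr : q + 1 = r)
    (hq : r - n = j - m) {i : ℕ} (hi : j < i) :
    (EM M n).d i hr (pull c σ hq) = 0 := by
  refine Subtype.ext (funext fun f => ?_)
  change pullFun c.1 σ hq (dl i ∘ f) = 0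
  unfold pullFun
  rw [dif_neg]
  rintro ⟨_, h⟩
  have := h (i + m - j) (by omega)
  simp only [Function.comp_apply, dl] at this
  split_ifs at this <;> push_cast at this <;> omega

theorem pull_dg {m j j' : ℕ} (c : CoZ X M m) (τ : X.obj (op ⦋j'⦌)) {n q r : ℤ} (hr : q + 1 = r)
    (hj : j' + 1 = j) (hq : r - n = j - m) (hq' : q - n = j' - m) {i : ℕ} (hi : i ≤ j') :
    (EM M n).s i hr (pull c τ hq') = pull c (dg X i hj hi τ) hq := by
  refine Subtype.ext (funext fun f => ?_)
  change pullFun c.1 τ hq' (sg i ∘ f) = pullFun c.1 (dg X i hj hi τ) hq f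
  unfold pullFun
  by_cases h : StrictMono f ∧ ∀ t : ℕ, m < t → (f t : ℤ) = t + (r - n)
  · rw [dif_pos h]
    by_cases h' : StrictMono (sg i ∘ f) ∧ ∀ t : ℕ, m < t → ((sg i ∘ f) t : ℤ) = t + (q - n)
    · rw [dif_pos h']
      unfold dg
      rw [opr_opr]
    · rw [dif_neg h']
      symm
      have h2 : ∀ t : ℕ, m < t → ((sg i ∘ f) t : ℤ) = t + (q - n) := by
        intro t ht
        have := h.2 t ht
        simp only [Function.comp_apply, sg]
        split_ifs <;> push_cast <;> omega
      have h3 : ¬ StrictMono (sg i ∘ f) := fun hs => h' ⟨hs, h2⟩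
      obtain ⟨a, ha⟩ : ∃ a, (sg i ∘ f) a = (sg i ∘ f) (a + 1) := by
        by_contra hn
        push Not at hn
        exact h3 (strictMono_nat_of_lt_succ fun a =>
          lt_of_le_of_ne ((sg_mono i).comp h.1.monotone (Nat.le_succ a)) (hn a))
      have ham : a + 1 ≤ m := by
        by_contra hn
        have h4 := h2 (a + 1) (by omega)
        rcases Nat.lt_or_ge m a with h5 | h5
        · have h6 := h2 a h5
          rw [ha] at h6
          push_cast at h4
          omega
        · have h7 : a = m := by omega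
          subst h7
          have h8 := h.2 (a + 1) (by omega)
          have h9 : f a < f (a + 1) := h.1 (by omega)
          rw [← ha] at h4
          simp only [Function.comp_apply, sg] at h4 ha
          split_ifs at h4 ha <;> push_cast at * <;> omega
      unfold dg
      rw [opr_opr]
      exact CoC.opr_eq_zero c.2.1 _ _ _ ham ha
  · have h' : ¬ (StrictMono (sg i ∘ f) ∧ ∀ t : ℕ, m < t → ((sg i ∘ f) t : ℤ) = t + (q - n)) := by
      intro h'
      refine h ⟨fun a b hab => ?_, fun t ht => ?_⟩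
      · by_contra hn
        exact absurd (h'.1 hab) (not_lt.mpr (sg_mono i (not_lt.mp hn)))
      · have := h'.2 t ht
        simp only [Function.comp_apply, sg] at this
        split_ifs at this <;> push_cast at this <;> omega
    rw [dif_neg h, dif_neg h']

theorem EMG.eq_zero_of_lt {n q : ℤ} (h : q < n) (c : (EM M n).G q) : c = 0 := by
  refine Subtype.ext (funext fun f => ?_)
  by_contra hne
  obtain ⟨hs, N, hN⟩ := c.2.1 f hne
  have h1 := hN N le_rfl
  have h2 := hs.le_apply (x := N)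
  omega

variable {M' : Type} [AddCommGroup M']

/-- The action of a map of Eilenberg-MacLane spectra on a cocycle. -/
noncomputable def act {k m l : ℕ} (a : Map (EM M 0).U (EM M' k)) (h : m + k = l)
    (c : CoZ X M m) : X.obj (op ⦋l⦌) → M' :=
  fun σ => (a.f k (pull c σ (n := 0) (q := k) (by omega))).1 id

theorem act_mem {k m l : ℕ} (a : Map (EM M 0).U (EM M' k)) (h : m + k = l)
    (c : CoZ X M m) : act a h c ∈ CoZ X M' l := by
  refine ⟨fun i t ht hi τ => ?_, fun σ => ?_⟩
  · subst ht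
    unfold act
    rw [← pull_dg c τ (n := 0) (q := (k : ℤ) - 1) (r := k) (by omega) rfl (by omega)
      (by push_cast at *; omega) hi]
    have h1 := a.map_s i (show (k : ℤ) - 1 + 1 = k by omega)
      (pull c τ (n := 0) (q := (k : ℤ) - 1) (by push_cast at *; omega))
    rw [h1, EMG.eq_zero_of_lt (by omega) (a.f _ _), map_zero]
    rfl
  · subst h
    have hq : ((k : ℤ) + 1) - 0 = ((m + k + 1 : ℕ) : ℤ) - m := by push_cast; ring
    obtain ⟨K₀, hK⟩ := (a.f ((k : ℤ) + 1) (pull c σ (n := 0) hq)).2.2.2 id monotone_id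
      ⟨0, fun i _ => by simp⟩
    have h2 : ∀ i, m + k + 1 < i →
        (a.f ((k : ℤ) + 1) (pull c σ (n := 0) hq)).1 (id ∘ dl i) = 0 := by
      intro i hi
      have h3 := a.map_d i (rfl : (k : ℤ) + 1 = (k : ℤ) + 1) (pull c σ (n := 0) hq)
      have h5 := congrArg (a.f (k : ℤ)) (pull_fc_big c σ (n := 0)
        (rfl : (k : ℤ) + 1 = (k : ℤ) + 1) hq hi)
      have h4 : (a.f (k : ℤ)) ((EM M 0).d i rfl (pull c σ (n := 0) hq)) = 0 :=
        h5.trans (a.map_pt _)
      have h6 := h3.symm.trans h4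
      exact congrArg (fun z : (EM M' (k : ℤ)).G k => z.1 id) h6
    have h5 := hK (max K₀ (m + k + 2)) (le_max_left _ _)
    obtain ⟨K', hK'⟩ : ∃ K', max K₀ (m + k + 2) = m + k + 1 + 1 + K' :=
      ⟨max K₀ (m + k + 2) - (m + k + 2), by omega⟩
    rw [hK', Finset.sum_range_add] at h5
    rw [Finset.sum_eq_zero (s := Finset.range K') (fun x _ => by
      rw [h2 _ (by omega), smul_zero]), add_zero] at h5
    unfold cobd
    rw [← h5]
    refine Finset.sum_congr rfl fun i hi => ?_
    congr 1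
    have hi' : i ≤ m + k + 1 := by have := Finset.mem_range.mp hi; omega
    have h6 := a.map_d i (rfl : (k : ℤ) + 1 = (k : ℤ) + 1) (pull c σ (n := 0) hq)
    have h7 := congrArg (a.f (k : ℤ)) (pull_fc c σ (n := 0) (rfl : (k : ℤ) + 1 = (k : ℤ) + 1)
      (show (m + k) + 1 = m + k + 1 from rfl) hq (show (k : ℤ) - 0 = ((m + k : ℕ) : ℤ) - m by
        push_cast; ring) hi')
    have h8 := h7.symm.trans h6
    exact congrArg (fun z : (EM M' (k : ℤ)).G k => z.1 id) h8

end BPN
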